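import Pool.Agent.Work.MP_db9399_sw.Mach
import Pool.Agent.Work.MP_db9399_ot_helper6.ASM

/-!
# PHASE 2 (short spots), block ASM2 (helper43): `stmt_ASM` of helper6 with one more conclusion
-/

set_option autoImplicit false

namespace Pool.Agent.Work.MP_db9399_sw.helper43

open Finset Classical
open Pool.Agent.Work.MP_db9399_bg (mem_nb mem_c3 LabP Lbl c3f c3 rs eR Ix HPre Spr inW
  not_rs_of_inW)
open Pool.Agent.Work.MP_db9399_all (nb)
open Pool.Agent.Work.MP_db9399_dn (NB IsMat Tot)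
open Pool.Agent.Work.MP_db9399_lc.helper6 (not_rs_Y not_rs_B)
open Pool.Agent.Work.MP_db9399_lh (Cr Lh ce su kp io sp pt cr cy rf rx rr tj ty inM rP rR np nr eP
  pr qr qe fq f0 ft Vq EndSX Vd UW VCol Rr Rf Jk Ub P0R PeR)
open Pool.Agent.Work.MP_db9399_lh.helper35.ASM (resti US mem_UW MA MA_symm US_left mem_Ub Qi mem_Qi
  pi3 notQ notQ1 ty_part c_cell cov_U cov_e cov_e1)
open Pool.Agent.Work.MP_db9399_ot
open Pool.Agent.Work.MP_db9399_ot.helper6.ASM

universe u

theorem stmt_ASM2 : Stmt_ASM2.{u} := by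
  intro V _ n l m r K K1 S gd ε δ G H Gc d D k w W1 ν UH c0 EH tu lab e τ ι ρ e1 sy tp pal c wv
    Nd M O Kk M1 O1 hl hdeg hG hdk hH he he1 hee htp _ hι hC hU hN hP hOm hL hE hO1m
  have hT : ∀ b, b ∈ univ.filter (fun b => b ∈ Set.range e ∨ b ∈ Set.range e1) ↔
      (b ∈ Set.range e ∨ b ∈ Set.range e1) := by
    intro b
    simp only [Finset.mem_filter, Finset.mem_univ, true_and]
  have hTc : (univ.filter (fun b => b ∈ Set.range e ∨ b ∈ Set.range e1)).card = d + 2 := by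
    have h1 : (univ.filter (fun b => b ∈ Set.range e ∨ b ∈ Set.range e1)) =
        (univ : Finset (Ix m w)).image e ∪ (univ : Finset (Fin W1)).image e1 := by
      ext b
      simp
    rw [h1, card_union_of_disjoint, card_image_of_injective _ he, card_image_of_injective _ he1,
      card_univ, card_univ, Fintype.card_fin, ← hdk]
    · congr 1
      rw [Fintype.card_prod, Fintype.card_prod, Fintype.card_fin, Fintype.card_fin, ZMod.card]
    · rw [disjoint_left]
      intro b hb hb'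
      obtain ⟨i, _, hi⟩ := mem_image.mp hb
      obtain ⟨j, _, hj⟩ := mem_image.mp hb'
      exact hee i j (hi.trans hj.symm)
  have hadj0 : ∀ x y, x ∉ UH → y ∉ UH → G.Adj x y → ¬ (Rf H UH lab).Adj x y →
      ∃ b, MA UH c0 tu EH e τ e1 tp wv Nd M Kk M1 b x y := by
    intro x y hx hy hxy hr
    rcases hL.all x y hx hy hxy hr with ⟨i, hi⟩ | ⟨i, hi⟩ | ⟨j, hj⟩
    · exact ⟨e i, Or.inl ⟨i, rfl, Or.inl hi⟩⟩
    · exact ⟨e i, Or.inl ⟨i, rfl, Or.inr hi⟩⟩
    · exact ⟨e1 j, Or.inr (Or.inl ⟨j, rfl, Or.inl hj⟩)⟩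
  have hadj : ∀ x y, x ∉ UH → y ∉ UH → G.Adj x y → ¬ rf (cr (lab x)) (cr (lab y)) →
      ∃ b, MA UH c0 tu EH e τ e1 tp wv Nd M Kk M1 b x y :=
    fun x y hx hy hxy hr => hadj0 x y hx hy hxy (fun h => hr h.2.2.2.2)
  have hsat : ∀ x y, x ∈ UH → y ∉ UH → G.Adj x y →
      (¬ H.Adj x y ∨ pt (lab y) ≠ tp x ∨ inM (lab y)) →
      ∃ b, MA UH c0 tu EH e τ e1 tp wv Nd M Kk M1 b x y := by
    intro x y hx hy hxy h
    obtain ⟨i, h0, h1, h2, h3⟩ := hU.sat x hx y hxy hy h
    exact ⟨e i, Or.inr (Or.inr (Or.inl ⟨hx, Or.inl ⟨i, rfl, h0⟩, h1, h2, h3⟩))⟩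
  suffices hsuff : ∃ t : V → V → Fin k, Tot G c t ∧
      (∀ b v w, MA UH c0 tu EH e τ e1 tp wv Nd M Kk M1 b v w → t v w = b) ∧
      ∀ v w, G.Adj v w → (¬ ∃ b, MA UH c0 tu EH e τ e1 tp wv Nd M Kk M1 b v w) →
        t v w ∈ Qi e τ (pi3 UH lab tp v) by
    obtain ⟨t, ht, hM, hR⟩ := hsuff
    refine ⟨t, ht, ?_, ?_, ?_⟩
    · intro x y hxy
      exact hM (tu x) x y (Or.inr (Or.inr (Or.inr (Or.inr ⟨hxy, rfl⟩))))
    · have hUSf : ∀ b x y, US UH c0 tu e τ e1 tp wv b x y →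
          (∃ z, b = e z ∧ (H.Adj x y ∨ ∃ i, ι z.2.2 = some i ∧ (Gc i).Adj x y)) ∨
          ∃ z, b = e1 z ∧ H.Adj x y := by
        intro b x y h
        obtain ⟨h1, h0, h2, h3, h4⟩ := h
        rcases h0 with ⟨i, hi, hi2⟩ | ⟨j, hj⟩
        · subst hi
          have h5 := hU.cls x h1 i h2 h3 hi2
          rw [h4] at h5
          exact Or.inl ⟨i, rfl, h5⟩
        · subst hj
          have h5 := hU.cl1 x h1 j h2 h3
          rw [h4] at h5
          exact Or.inr ⟨j, rfl, h5⟩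
      intro x y hxy hEH
      by_cases hb : ∃ b, MA UH c0 tu EH e τ e1 tp wv Nd M Kk M1 b x y
      · obtain ⟨b, hb⟩ := hb
        have hbt := hM b x y hb
        rcases typ hH hU hN hP hL hE hb with ⟨a1, a2, h⟩ | ⟨a1, a2, h⟩ | ⟨a1, a2, h⟩ |
          ⟨a1, a2, h, h0⟩
        · rcases h with ⟨i, hi, h | h⟩ | ⟨j, hj, h | h⟩
          · left
            refine ⟨i, hbt.trans hi.symm, ?_⟩
            rcases (nd_fact hN hι h).2 with h5 | h5
            · exact Or.inl h5.1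
            · exact Or.inr h5
          · left
            exact ⟨i, hbt.trans hi.symm, Or.inl (hP.le i _ _ h).1.1⟩
          · right
            exact ⟨j, hbt.trans hj.symm, Or.inr ⟨a1, a2, (hL.mem j _ _ h).2.2,
              (hL.mem j _ _ h.symm).2.2⟩⟩
          · right
            exact ⟨j, hbt.trans hj.symm, Or.inl (hE.le j _ _ h).1.1⟩
        · rcases hUSf b x y h with ⟨z, hz, h5⟩ | ⟨z, hz, h5⟩
          · exact Or.inl ⟨z, hbt.trans hz, h5⟩
          · exact Or.inr ⟨z, hbt.trans hz, Or.inl h5⟩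
        · rcases hUSf b y x h with ⟨z, hz, h5⟩ | ⟨z, hz, h5⟩
          · refine Or.inl ⟨z, hbt.trans hz, ?_⟩
            rcases h5 with h5 | ⟨i, h6, h7⟩
            · exact Or.inl h5.symm
            · exact Or.inr ⟨i, h6, h7.symm⟩
          · exact Or.inr ⟨z, hbt.trans hz, Or.inl h5.symm⟩
        · exact absurd h hEH
      · have h1 := hR x y hxy hb
        obtain ⟨z, _, hz⟩ := mem_Qi.mp h1
        refine Or.inl ⟨z, hz.symm, Or.inl ?_⟩
        by_contra hnH
        apply hb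
        by_cases hxU : x ∈ UH <;> by_cases hyU : y ∈ UH
        · exact absurd (hH.ind x hxU y hyU hxy) hEH
        · exact hsat x y hxU hyU hxy (Or.inl hnH)
        · obtain ⟨b, hb'⟩ := hsat y x hyU hxU hxy.symm (Or.inl (fun h => hnH h.symm))
          exact ⟨b, MA_symm hH hb'⟩
        · exact hadj0 x y hxU hyU hxy (fun h => hnH h.1)
    · -- the missing colours
      intro x b hb hbc hmiss
      have hno : ∀ y, ¬ MA UH c0 tu EH e τ e1 tp wv Nd M Kk M1 b x y := fun y hy =>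
        hmiss y (MA_le hG hH hU hN hP hL hE hy) (hM b x y hy)
      refine ⟨?_, ?_⟩
      · intro hxU
        by_contra hnQ
        have hv : Vd e τ e1 (tp x) b := by
          rcases hb with ⟨i, hi⟩ | ⟨j, hj⟩
          · exact Or.inl ⟨i, hi, fun h => hnQ ⟨i, hi, h⟩⟩
          · exact Or.inr ⟨j, hj⟩
        obtain ⟨y, hy⟩ := cov_U (EH := EH) (Nd := Nd) (M := M) (Kk := Kk) (M1 := M1) (wv := wv)
          hH hxU hv (by rw [← hC.cU x hxU]; exact hbc)
        exact hno y hy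
      · intro hxU hxm
        rcases hb with ⟨i, rfl⟩ | ⟨j, rfl⟩
        · refine ⟨i, rfl, ?_⟩
          by_contra hnot
          push Not at hnot
          obtain ⟨y, hy⟩ := cov_e (EH := EH) (Kk := Kk) (M1 := M1) hP hxU hnot.1 hbc.symm
            (fun h0 => hnot.2 (hP.OU i x h0).2.2.1.symm)
          exact hno y hy
        · obtain ⟨y, hy⟩ := cov_e1 (EH := EH) (Nd := Nd) (c0 := c0) (tu := tu) (lab := lab) hE hxU
            (fun h0 => hxm (hO1m j x h0))
          exact (hno y hy).elim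
  refine core3x G c
    (univ.filter (fun b => b ∈ Set.range e ∨ b ∈ Set.range e1)) (Qi e τ) (pi3 UH lab tp)
    (univ.filter (fun x => x ∉ UH ∧ inM (lab x)))
    (univ.filter (fun x => x ∉ UH ∧ inW (lab x).1))
    (univ.filter (fun x => x ∉ UH ∧ l + 2 ≤ (lab x).1.2.1.val))
    (fun b => { Adj := MA UH c0 tu EH e τ e1 tp wv Nd M Kk M1 b
                symm := ⟨fun x y h => MA_symm hH h⟩
                loopless := ⟨fun x h => G.loopless.irrefl x (MA_le hG hH hU hN hP hL hE h)⟩ })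
    hdeg hTc ?_ hC.adj ?_ ?_ ?_ ?_ ?_ ?_ ?_ ?_ ?_ ?_ ?_ ?_ ?_
  · intro i b hb
    rw [hT]
    obtain ⟨x, _, hx⟩ := mem_Qi.mp hb
    exact Or.inl ⟨x, hx⟩
  · intro x
    unfold pi3
    by_cases hx : x ∈ UH
    · rw [if_pos hx, hC.cU x hx]
      intro h
      obtain ⟨i, h1, h2⟩ := mem_Qi.mp h
      exact (htp x hx i h1).1 h2
    · rw [if_neg hx]
      obtain ⟨p, hp, _, h2⟩ := hC.cP x hx
      rw [hp]
      apply notQ he
      rw [h2]
      simp
  · intro b x y h
    exact MA_le hG hH hU hN hP hL hE h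
  · intro b x y h
    exact MA_Q hH he hee htp hι hU hN hP hL hE h
  · intro b x
    rw [Finset.card_le_one]
    intro y hy z hz
    exact MA_uniq hH hU he he1 hee hN hP hL hE (mem_nb.mp hy) (mem_nb.mp hz)
  · intro b b' hne x y h h'
    exact hne (MA_col hG hl hH hU hN hP hL hE h h')
  · intro b x y h
    exact MA_c hH he hee hC hU hN hP hL hE h
  · intro x hx b hb hbc
    obtain ⟨hb, hbQ⟩ := mem_sdiff.mp hb
    rw [hT] at hb
    have hcov : ∃ y, MA UH c0 tu EH e τ e1 tp wv Nd M Kk M1 b x y := by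
      by_cases hxU : x ∈ UH
      · unfold pi3 at hbQ
        rw [if_pos hxU] at hbQ
        refine cov_U hH hxU ?_ (by rw [← hC.cU x hxU]; exact hbc)
        rcases hb with ⟨i, hi⟩ | hb
        · exact Or.inl ⟨i, hi, fun h => hbQ (mem_Qi.mpr ⟨i, h, hi⟩)⟩
        · exact Or.inr hb
      · unfold pi3 at hbQ
        rw [if_neg hxU] at hbQ
        have hxW : ¬ inM (lab x) := by
          intro h0
          exact hx (Finset.mem_filter.mpr ⟨Finset.mem_univ _, hxU, h0⟩)
        rcases hb with ⟨i, rfl⟩ | ⟨j, rfl⟩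
        · exact cov_e hP hxU (fun h => hbQ (mem_Qi.mpr ⟨i, h, rfl⟩)) hbc.symm
            (fun h0 => hxW (hP.OU i x h0).2.2.2)
        · exact cov_e1 hE hxU (fun h0 => hxW (hE.OW j x h0).2)
    obtain ⟨y, hy⟩ := hcov
    exact ⟨y, mem_nb.mpr hy⟩
  · intro x hx
    have hxU : x ∉ UH := (Finset.mem_filter.mp hx).2.1
    have hpart : ∀ b ∈ (univ.filter (fun b => b ∈ Set.range e ∨ b ∈ Set.range e1)) \
        Qi e τ (pi3 UH lab tp x), (∃ i, e i = b ∧ τ i.2.2 ≠ some (pt (lab x))) ∨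
        ∃ j, e1 j = b := by
      intro b hb
      obtain ⟨hb, hbQ⟩ := mem_sdiff.mp hb
      rw [hT] at hb
      unfold pi3 at hbQ
      rw [if_neg hxU] at hbQ
      rcases hb with ⟨i, rfl⟩ | ⟨j, rfl⟩
      · exact Or.inl ⟨i, rfl, fun h => hbQ (mem_Qi.mpr ⟨i, h, rfl⟩)⟩
      · exact Or.inr ⟨j, rfl⟩
    by_cases h0 : ∃ i, x ∈ O i
    · obtain ⟨i0, hi0⟩ := h0
      refine ⟨e i0, ?_⟩
      intro b hb hbc hb0
      have hcov : ∃ y, MA UH c0 tu EH e τ e1 tp wv Nd M Kk M1 b x y := by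
        rcases hpart b hb with ⟨i, rfl, hip⟩ | ⟨j, rfl⟩
        · refine cov_e hP hxU hip hbc.symm (fun h1 => ?_)
          have hne : i0 ≠ i := fun h2 => hb0 (by rw [h2])
          exact Finset.disjoint_left.mp (hP.Od i0 i hne) hi0 h1
        · exact cov_e1 hE hxU (fun h1 => Finset.disjoint_left.mp (hE.Od j i0) h1 hi0)
      obtain ⟨y, hy⟩ := hcov
      exact ⟨y, mem_nb.mpr hy⟩
    · push Not at h0
      by_cases h2 : ∃ j, x ∈ O1 j
      · obtain ⟨j0, hj0⟩ := h2
        refine ⟨e1 j0, ?_⟩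
        intro b hb hbc hb0
        have hcov : ∃ y, MA UH c0 tu EH e τ e1 tp wv Nd M Kk M1 b x y := by
          rcases hpart b hb with ⟨i, rfl, hip⟩ | ⟨j, rfl⟩
          · exact cov_e hP hxU hip hbc.symm (h0 i)
          · refine cov_e1 hE hxU (fun h1 => ?_)
            have hne : j0 ≠ j := fun h2 => hb0 (by rw [h2])
            exact Finset.disjoint_left.mp (hE.O1d j0 j hne) hj0 h1
        obtain ⟨y, hy⟩ := hcov
        exact ⟨y, mem_nb.mpr hy⟩
      · push Not at h2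
        refine ⟨c x, ?_⟩
        intro b hb hbc _
        have hcov : ∃ y, MA UH c0 tu EH e τ e1 tp wv Nd M Kk M1 b x y := by
          rcases hpart b hb with ⟨i, rfl, hip⟩ | ⟨j, rfl⟩
          · exact cov_e hP hxU hip hbc.symm (h0 i)
          · exact cov_e1 hE hxU (h2 j)
        obtain ⟨y, hy⟩ := hcov
        exact ⟨y, mem_nb.mpr hy⟩
  · rw [Finset.disjoint_left]
    intro x hx hy
    have hx1 := (Finset.mem_filter.mp hx).2.2.2
    have hy1 := (Finset.mem_filter.mp hy).2.2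
    omega
  · intro x hx y hy hxy
    have hx1 := (Finset.mem_filter.mp hx).2
    have hy1 := (Finset.mem_filter.mp hy).2
    refine hadj x y hx1.1 hy1.1 hxy (fun h => ?_)
    exact not_rs_of_inW hx1.2 hy1.2 h.2
  · intro x hx y hy hxy
    have hx1 := (Finset.mem_filter.mp hx).2
    have hy1 := (Finset.mem_filter.mp hy).2
    refine hadj x y hx1.1 hy1.1 hxy (fun h => ?_)
    exact not_rs_Y hx1.2 hy1.2 h.2
  · intro x y hxy hxX hxY hy
    have hy1 := (Finset.mem_filter.mp hy).2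
    by_cases hxU : x ∈ UH
    · exact hsat x y hxU hy1.1 hxy (Or.inr (Or.inr hy1.2))
    · refine hadj x y hxU hy1.1 hxy (fun h => ?_)
      have hx1 : ¬ inW (lab x).1 := fun h0 =>
        hxX (Finset.mem_filter.mpr ⟨Finset.mem_univ _, hxU, h0⟩)
      have hx2 : ¬ (l + 2 ≤ (lab x).1.2.1.val) := fun h0 =>
        hxY (Finset.mem_filter.mpr ⟨Finset.mem_univ _, hxU, h0⟩)
      have h3 : (lab x).1.2.1.val = 0 ∨ (lab x).1.2.1.val = l + 1 := by
        unfold inW at hx1
        omega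
      exact not_rs_B (t := (lab y).1) h3 hy1.2 h.2
  · intro x y hxy hne
    unfold pi3 at hne
    by_cases hxU : x ∈ UH <;> by_cases hyU : y ∈ UH
    · exact ⟨tu x, Or.inr (Or.inr (Or.inr (Or.inr ⟨hH.ind x hxU y hyU hxy, rfl⟩)))⟩
    · rw [if_pos hxU, if_neg hyU] at hne
      exact hsat x y hxU hyU hxy (Or.inr (Or.inl (fun h => hne h.symm)))
    · rw [if_neg hxU, if_pos hyU] at hne
      obtain ⟨b, hb⟩ := hsat y x hyU hxU hxy.symm (Or.inr (Or.inl hne))
      exact ⟨b, MA_symm hH hb⟩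
    · rw [if_neg hxU, if_neg hyU] at hne
      exact hadj x y hxU hyU hxy (fun h => hne h.1)

end Pool.Agent.Work.MP_db9399_sw.helper43
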